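import Pool.Agent.Lib_helper78.PLS.InfPH
import Pool.Agent.Lib_helper57.PX.IsoC

/-!
# MP_5c38ab_lc: Q1 has no relativizing proof from an infinite polynomial hierarchy and trapdoor
permutations of almost exponential hardness

For every oracle `R` and every `β(n) → ∞` there is an oracle `O` with `R ∈ P^O` such that, relative to
`O`, the polynomial hierarchy is infinite, there are trapdoor permutations that are secure at all
large lengths `n` against all nonuniform adversaries with time and advice `2 ^ (n / β n)`, and Q1 is
false (its negated form holds): some `S` has proofs of polynomial length, computable from `1^n` in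
polynomial time, of the sentences `Σ^b_1RFN_T(n)` of all `T`.

The definitions are in `Lib_helper57/PX` (`Mach`, `InP`, `InNP`, `InFP`, `Join`, `Arith`, `QFalse`,
`PH`, `TDP`).
-/

set_option autoImplicit false

namespace Pool.Agent.Results.MP_5c38ab_lc.AboveEveryOracleInfinitePH

open Pool.Agent.PX

theorem result (R : Lang) (β : ℕ → ℕ) (hβ : Filter.Tendsto β Filter.atTop Filter.atTop) :
    ∃ O : Lang, InP O R ∧ Q1False O ∧ InfinitePH O ∧
      ∃ G F K, TrapdoorPermutations O G F K ∧ Secure O G F (fun n => 2 ^ (n / β n)) := by
  obtain ⟨O, h1, h3, h4, G, F, K, h6, h7⟩ := Pool.Agent.PLS.infPH R β hβ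
  exact ⟨O, (inP_iff O R).1 h1, (q1False_iff O).1 h3, (infinitePH_iff O).1 h4, G, F, K,
    (tdp_iff O G F K).1 h6, (secure_iff O G F _).1 h7⟩

end Pool.Agent.Results.MP_5c38ab_lc.AboveEveryOracleInfinitePH
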