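import Pool.Agent.Lib_helper11.Cubic.Final

set_option autoImplicit false

/-! One sign of the Liouville function at the values of cyclic cubic polynomials. -/

namespace Pool.Agent.Results.MP_892e4c_nt.CyclicOneSign

open Polynomial

/-- The Liouville function extended to the integers: `λ(0) = 0` and, for `m ≠ 0`,
`λ(m) = (-1)^Ω(|m|)`, where `Ω` counts prime factors with multiplicity. -/
def liouville (m : ℤ) : ℤ :=
  if m = 0 then 0 else (-1) ^ (ArithmeticFunction.cardFactors m.natAbs)

/-- The cubic polynomial `X^3 - A X^2 - (A t + 3 t^2) X - t^3`. -/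
noncomputable def cubic (A t : ℤ) : ℤ[X] :=
  X ^ 3 - C A * X ^ 2 - C (A * t + 3 * t ^ 2) * X - C (t ^ 3)

/-- If `f = cubic A t` is irreducible and `t ≥ 1`, then `λ(f(n)) = λ(t)` for at least
`c N^(1/4)` of the positive integers `n ≤ N`. -/
theorem result (A t : ℤ) (ht : 1 ≤ t) (hf : Irreducible (cubic A t)) :
    ∃ c : ℝ, 0 < c ∧ ∃ N₀ : ℕ, ∀ N : ℕ, N₀ ≤ N →
      c * (N : ℝ) ^ ((1 : ℝ) / 4) ≤
        (((Finset.Icc 1 N).filter
          (fun n : ℕ => liouville ((cubic A t).eval (n : ℤ)) = liouville t)).card : ℝ) :=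
  Lib_helper11.Cubic.count_final ht ((Lib_helper11.Cubic.cubic_irreducible_iff A t).1 hf)

end Pool.Agent.Results.MP_892e4c_nt.CyclicOneSign
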