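import Mathlib
import Pool.Agent.Lib_helper10.RY.Reay

/-!
# Dimensions of Tverberg sets of points in general position

For `r ≤ 4` parts Reay's bound for `dim T_r(X)` holds in every dimension; for more parts it holds
up to `r - 5` additional points (apart from `k = 1`). Hence Kalai's inequality holds for at most
`5(d+1)` points in general position.
-/

open Pool.Agent

theorem Pool.Agent.Results.MP_de0e04_co.NearReay.result {d : ℕ} (X : Finset (Fin d → ℝ))
    (hX : ∀ S ⊆ X, S.card ≤ d + 1 →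
      AffineIndependent ℝ (fun x : {x // x ∈ S} => (x : Fin d → ℝ))) :
    (∀ r k : ℕ, 1 ≤ r → k ≤ d → (r ≤ 4 ∨ k ≠ 1) →
      (r - 1) * (d + 1) + k + 1 + (r - 5) ≤ X.card → (k : ℤ) ≤ KL.dimT r X) ∧
    (X.card ≤ 5 * (d + 1) → 0 ≤ ∑ r ∈ Finset.Icc 1 X.card, KL.dimT r X) :=
  ⟨fun _ _ hr hk hrk hn => RY.reay hX hr hk hrk hn, fun hn => RY.kalai_gp hX hn⟩
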